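import Pool.Agent.T9h55.KT.Core

/-! Existence of the moduli (helper55). -/

set_option autoImplicit false

namespace Pool.Agent.T9h55.FM

open Filter Topology Real

/-- the modulus -/
noncomputable def lm (A p : ℕ) : ℕ := (Finset.Icc 1 ⌊(A : ℝ) / 6 * Real.log p⌋₊).lcm id

lemma lm_eq (A p : ℕ) : lm A p = Nat.lcmUpto ⌊(A : ℝ) / 6 * Real.log p⌋₊ := by
  unfold lm Nat.lcmUpto
  rfl

lemma lm_pos (A p : ℕ) : 1 ≤ lm A p := by
  rw [lm_eq]
  exact Nat.lcmUpto_pos _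

lemma lm_dvd (A p : ℕ) {m : ℕ} (h1 : 1 ≤ m) (h2 : (m : ℝ) ≤ (A : ℝ) / 6 * Real.log p) : m ∣ lm A p :=
  Finset.dvd_lcm (f := id) (Finset.mem_Icc.2 ⟨h1, Nat.le_floor h2⟩)

lemma lm_fac (A p : ℕ) {l : ℕ} (hl : l.Prime) (h : l ∣ lm A p) : l ≤ ⌊(A : ℝ) / 6 * Real.log p⌋₊ := by
  rw [lm_eq] at h
  have h1 : l ∣ (⌊(A : ℝ) / 6 * Real.log p⌋₊).factorial := h.trans (Nat.lcmUpto_dvd_factorial _)
  exact (hl.dvd_factorial).1 h1

lemma lm_size (A p : ℕ) (hp : 1 ≤ p) : (lm A p : ℝ) ≤ (p : ℝ) ^ A := by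
  have h1 := Chebyshev.psi_eq_log_lcmUpto ⌊(A : ℝ) / 6 * Real.log p⌋₊
  have h2 := Chebyshev.psi_le_const_mul_self (x := ((⌊(A : ℝ) / 6 * Real.log p⌋₊ : ℕ) : ℝ)) (Nat.cast_nonneg _)
  rw [h1, ← lm_eq] at h2
  have hp1 : (1 : ℝ) ≤ p := by exact_mod_cast hp
  have hl : 0 ≤ Real.log p := Real.log_nonneg hp1
  have hpos : (0 : ℝ) < (lm A p : ℝ) := by exact_mod_cast lm_pos A p
  rw [← Real.log_le_log_iff hpos (by positivity), Real.log_pow]
  have h3 : ((⌊(A : ℝ) / 6 * Real.log p⌋₊ : ℕ) : ℝ) ≤ (A : ℝ) / 6 * Real.log p := Nat.floor_le (by positivity)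
  have h4 : Real.log 4 = 2 * Real.log 2 := by
    rw [show (4 : ℝ) = 2 ^ 2 by norm_num, Real.log_pow]
    norm_num
  have h6 := Real.log_two_lt_d9
  have h5 : 0 ≤ (A : ℝ) * Real.log p := by positivity
  calc Real.log (lm A p) ≤ (Real.log 4 + 4) * ((⌊(A : ℝ) / 6 * Real.log p⌋₊ : ℕ) : ℝ) := h2
    _ ≤ 5.4 * ((A : ℝ) / 6 * Real.log p) := by
        refine mul_le_mul (by rw [h4]; linarith) h3 (Nat.cast_nonneg _) (by norm_num)
    _ = 0.9 * (A * Real.log p) := by ring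
    _ ≤ A * Real.log p := by linarith

theorem exists_mod (A : ℕ) : ∃ M H : ℕ → ℕ, (∀ p, 1 ≤ M p) ∧
    (∀ᶠ p : ℕ in atTop, (M p : ℝ) ≤ (p : ℝ) ^ A) ∧ (∀ᶠ p : ℕ in atTop, ∀ q : ℕ, q.Prime → q ∣ M p → q ≤ p) ∧
    (∀ᶠ p : ℕ in atTop, goldenRatio ^ p / (p : ℝ) ^ A ≤ (M p : ℝ) * H p ∧
      (M p : ℝ) * H p ≤ 2 * (goldenRatio ^ p / (p : ℝ) ^ A)) ∧ (∀ p, 1 ≤ H p) ∧
    ∀ p m : ℕ, 1 ≤ m → (m : ℝ) ≤ (A : ℝ) / 6 * Real.log p → m ∣ M p := by
  have hφ1 : 1 < goldenRatio := Real.one_lt_goldenRatio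
  have hφ0 : 0 < goldenRatio := by linarith
  refine ⟨lm A, fun p => max 1 ⌈goldenRatio ^ p / ((p : ℝ) ^ A * lm A p)⌉₊, lm_pos A, ?_, ?_, ?_, fun p => le_max_left _ _,
    fun p m h1 h2 => lm_dvd A p h1 h2⟩
  · filter_upwards [eventually_ge_atTop 1] with p hp
    exact lm_size A p hp
  · filter_upwards [Pool.Agent.T9h55.KT.pow_log_le ((A : ℝ) / 6) 1] with p hp q hq hd
    have h1 := lm_fac A p hq hd
    rw [pow_one] at hp
    have h2 : ⌊(A : ℝ) / 6 * Real.log p⌋₊ ≤ p := by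
      apply Nat.floor_le_of_le
      exact hp
    omega
  · have hgrow : ∀ᶠ p : ℕ in atTop, (p : ℝ) ^ (2 * A) ≤ goldenRatio ^ p := by
      have h1 := tendsto_pow_const_div_const_pow_of_one_lt (2 * A) hφ1
      filter_upwards [h1.eventually (gt_mem_nhds one_pos)] with p hp
      rw [div_lt_one (by positivity)] at hp
      exact hp.le
    filter_upwards [hgrow, eventually_ge_atTop 1] with p h1 h2
    have hp0 : (0 : ℝ) < p := by exact_mod_cast h2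
    set M : ℝ := (lm A p : ℝ) with hM
    have hM0 : 0 < M := by
      rw [hM]
      exact_mod_cast lm_pos A p
    have hMA := lm_size A p h2
    set Y : ℝ := goldenRatio ^ p / ((p : ℝ) ^ A * M) with hY
    have hYM : M * Y = goldenRatio ^ p / (p : ℝ) ^ A := by
      rw [hY]
      field_simp
    have hY1 : 1 ≤ Y := by
      rw [hY, one_le_div (by positivity)]
      calc (p : ℝ) ^ A * M ≤ (p : ℝ) ^ A * (p : ℝ) ^ A := mul_le_mul_of_nonneg_left hMA (by positivity)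
        _ = (p : ℝ) ^ (2 * A) := by ring
        _ ≤ _ := h1
    have hceil : 1 ≤ ⌈Y⌉₊ := Nat.one_le_ceil_iff.2 (by linarith)
    rw [max_eq_right hceil]
    constructor
    · rw [← hYM]
      exact mul_le_mul_of_nonneg_left (Nat.le_ceil Y) hM0.le
    · rw [← hYM]
      have h5 : (⌈Y⌉₊ : ℝ) ≤ 2 * Y := by
        have := Nat.ceil_lt_add_one (show 0 ≤ Y by linarith)
        linarith
      calc M * (⌈Y⌉₊ : ℝ) ≤ M * (2 * Y) := mul_le_mul_of_nonneg_left h5 hM0.le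
        _ = 2 * (M * Y) := by ring

end Pool.Agent.T9h55.FM
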