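import Pool.Agent.T9h55.RM.Conc

/-! The strong law of large numbers for independent events (helper55). -/

set_option autoImplicit false

namespace Pool.Agent.T9h55.FM

open Finset MeasureTheory ProbabilityTheory Filter Topology
open Pool.Agent.T9h55.RM (cnt Gr conc_up conc_low bc)

variable {Ω : Type*} [MeasurableSpace Ω] {μ : Measure Ω}

open Classical in
/-- the number of the events which occur -/
noncomputable def num (E : ℕ → Set Ω) (n : ℕ) (ω : Ω) : ℕ := #((range n).filter fun j => ω ∈ E j)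

omit [MeasurableSpace Ω] in
lemma num_mono (E : ℕ → Set Ω) (ω : Ω) : Monotone fun n => num E n ω := by
  classical
  intro a b hab
  unfold num
  apply card_le_card
  apply filter_subset_filter
  intro j hj
  rw [mem_range] at hj ⊢
  omega

omit [MeasurableSpace Ω] in
lemma cnt_num (E : ℕ → Set Ω) (n : ℕ) (ω : Ω) : cnt E (fun m => {m}) (range n) ω = num E n ω := by
  classical
  unfold cnt num
  congr 1
  apply filter_congr
  intro m _
  unfold Gr
  simp

/-- the expectation -/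
noncomputable def mean (μ : Measure Ω) (E : ℕ → Set Ω) (n : ℕ) : ℝ := ∑ j ∈ range n, μ.real (E j)

lemma mean_mono (μ : Measure Ω) (E : ℕ → Set Ω) : Monotone (mean μ E) := by
  intro a b hab
  unfold mean
  apply Finset.sum_le_sum_of_subset_of_nonneg
  · intro j hj
    rw [mem_range] at hj ⊢
    omega
  · intro j _ _
    exact measureReal_nonneg

lemma mean_succ [IsProbabilityMeasure μ] (E : ℕ → Set Ω) (n : ℕ) : mean μ E (n + 1) ≤ mean μ E n + 1 := by
  unfold mean
  rw [Finset.sum_range_succ]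
  have : μ.real (E n) ≤ 1 := measureReal_le_one
  linarith

lemma mean_nonneg (μ : Measure Ω) (E : ℕ → Set Ω) (n : ℕ) : 0 ≤ mean μ E n := Finset.sum_nonneg fun _ _ => measureReal_nonneg

open Classical in
/-- the first time when the expectation is at least `k` -/
noncomputable def tau (μ : Measure Ω) (E : ℕ → Set Ω) (h : Tendsto (mean μ E) atTop atTop) (k : ℕ) : ℕ :=
  Nat.find (h.eventually_ge_atTop (k : ℝ)).exists

lemma tau_spec {E : ℕ → Set Ω} (h : Tendsto (mean μ E) atTop atTop) (k : ℕ) : (k : ℝ) ≤ mean μ E (tau μ E h k) :=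
  Nat.find_spec (h.eventually_ge_atTop (k : ℝ)).exists

lemma tau_le {E : ℕ → Set Ω} (h : Tendsto (mean μ E) atTop atTop) {k n : ℕ} (hk : (k : ℝ) ≤ mean μ E n) : tau μ E h k ≤ n :=
  Nat.find_min' (h.eventually_ge_atTop (k : ℝ)).exists hk

lemma tau_up [IsProbabilityMeasure μ] {E : ℕ → Set Ω} (h : Tendsto (mean μ E) atTop atTop) (k : ℕ) :
    mean μ E (tau μ E h (k + 1)) ≤ k + 2 := by
  have h1 := tau_spec h (k + 1)
  rcases Nat.eq_zero_or_pos (tau μ E h (k + 1)) with h0 | h0
  · rw [h0] at h1 ⊢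
    have h2 : mean μ E 0 = 0 := by
      unfold mean
      simp
    rw [h2]
    positivity
  · obtain ⟨m, hm⟩ : ∃ m, tau μ E h (k + 1) = m + 1 := ⟨tau μ E h (k + 1) - 1, by omega⟩
    have h2 : mean μ E m < k + 1 := by
      by_contra hc
      push Not at hc
      have h3 := tau_le h (k := k + 1) (n := m) (by push_cast; exact hc)
      omega
    rw [hm]
    have := mean_succ (μ := μ) E m
    linarith

lemma exp_small {c : ℝ} (hc : 0 < c) : ∀ᶠ k : ℕ in atTop, Real.exp (-(c * k)) ≤ 1 / (k : ℝ) ^ 2 := by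
  have h1 := Real.tendsto_pow_mul_exp_neg_atTop_nhds_zero 2
  have h2 : Tendsto (fun k : ℕ => c * (k : ℝ)) atTop atTop := tendsto_natCast_atTop_atTop.const_mul_atTop hc
  have h3 := (h1.comp h2).eventually (Iio_mem_nhds (show (0 : ℝ) < c ^ 2 by positivity))
  filter_upwards [h3, eventually_ge_atTop 1] with k h4 h5
  simp only [Function.comp_apply, Set.mem_Iio] at h4
  have hk : (0 : ℝ) < k := by exact_mod_cast h5
  rw [le_div_iff₀ (by positivity)]
  have h6 : c ^ 2 * (Real.exp (-(c * k)) * (k : ℝ) ^ 2) < c ^ 2 * 1 := by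
    calc c ^ 2 * (Real.exp (-(c * k)) * (k : ℝ) ^ 2) = (c * k) ^ 2 * Real.exp (-(c * k)) := by ring
      _ < c ^ 2 * 1 := by rw [mul_one]; exact h4
  exact (lt_of_mul_lt_mul_left h6 (by positivity)).le

lemma dev [IsProbabilityMeasure μ] {E : ℕ → Set Ω} (hE : ∀ j, MeasurableSet (E j)) (hind : iIndepSet E μ) (n : ℕ) {δ : ℝ}
    (hδ : 0 ≤ δ) (hδ1 : δ ≤ 1) :
    μ.real {ω | (1 + δ) * mean μ E n ≤ (num E n ω : ℝ)} ≤ Real.exp (-(δ ^ 2 / 4 * mean μ E n)) ∧
      μ.real {ω | (num E n ω : ℝ) ≤ (1 - δ) * mean μ E n} ≤ Real.exp (-(δ ^ 2 / 4 * mean μ E n)) := by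
  have hG : ((range n : Finset ℕ) : Set ℕ).PairwiseDisjoint (fun m => ({m} : Finset ℕ)) := by
    intro a _ b _ hab
    rw [Function.onFun, Finset.disjoint_singleton]
    exact hab
  have hsum : ∑ m ∈ range n, ∏ j ∈ ({m} : Finset ℕ), μ.real (E j) = mean μ E n := by
    unfold mean
    exact Finset.sum_congr rfl fun m _ => Finset.prod_singleton _ _
  have h1 := conc_up (μ := μ) hE hind (range n) (fun m => {m}) hG hδ hδ1
  have h2 := conc_low (μ := μ) hE hind (range n) (fun m => {m}) hG hδ hδ1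
  rw [hsum] at h1 h2
  simp only [cnt_num] at h1 h2
  exact ⟨h1, h2⟩

/-- **Strong law of large numbers for independent events.** -/
theorem slln [IsProbabilityMeasure μ] {E : ℕ → Set Ω} (hE : ∀ j, MeasurableSet (E j)) (hind : iIndepSet E μ)
    (h : Tendsto (mean μ E) atTop atTop) : ∀ᵐ ω ∂μ, Tendsto (fun n : ℕ => (num E n ω : ℝ) / mean μ E n) atTop (𝓝 1) := by
  have hmain : ∀ i : ℕ, ∀ᵐ ω ∂μ, ∀ᶠ k : ℕ in atTop,
      (1 - 1 / ((i : ℝ) + 1)) * mean μ E (tau μ E h k) ≤ num E (tau μ E h k) ω ∧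
      (num E (tau μ E h k) ω : ℝ) ≤ (1 + 1 / ((i : ℝ) + 1)) * mean μ E (tau μ E h k) := by
    intro i
    set δ : ℝ := 1 / ((i : ℝ) + 1) with hδ
    have hδ0 : 0 < δ := by positivity
    have hδ1 : δ ≤ 1 := by
      rw [hδ, div_le_one (by positivity)]
      have : (0 : ℝ) ≤ i := Nat.cast_nonneg _
      linarith
    have hexp : ∀ᶠ k : ℕ in atTop, Real.exp (-(δ ^ 2 / 4 * mean μ E (tau μ E h k))) ≤ 1 * (1 / (k : ℝ) ^ 2) := by
      filter_upwards [exp_small (c := δ ^ 2 / 4) (by positivity)] with k h1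
      rw [one_mul]
      refine le_trans (Real.exp_le_exp.2 ?_) h1
      have := mul_le_mul_of_nonneg_left (tau_spec h k) (show 0 ≤ δ ^ 2 / 4 by positivity)
      linarith
    have a1 := bc (μ := μ) (B := 1) (A := fun k => {ω | (1 + δ) * mean μ E (tau μ E h k) ≤ (num E (tau μ E h k) ω : ℝ)}) (by
      filter_upwards [hexp] with k h1
      exact ((dev hE hind (tau μ E h k) hδ0.le hδ1).1).trans h1)
    have a2 := bc (μ := μ) (B := 1) (A := fun k => {ω | (num E (tau μ E h k) ω : ℝ) ≤ (1 - δ) * mean μ E (tau μ E h k)}) (by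
      filter_upwards [hexp] with k h1
      exact ((dev hE hind (tau μ E h k) hδ0.le hδ1).2).trans h1)
    filter_upwards [a1, a2] with ω b1 b2
    filter_upwards [b1, b2] with k c1 c2
    simp only [Set.mem_ofPred_eq, not_le] at c1 c2
    exact ⟨c2.le, c1.le⟩
  rw [← ae_all_iff] at hmain
  filter_upwards [hmain] with ω hω
  rw [Metric.tendsto_nhds]
  intro ε hε
  obtain ⟨i, hi⟩ := exists_nat_gt (2 / ε)
  obtain ⟨k0, hk0⟩ := eventually_atTop.1 (hω i)
  set δ : ℝ := 1 / ((i : ℝ) + 1) with hδ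
  have hδ0 : 0 < δ := by positivity
  have hδ1 : δ ≤ 1 := by
    rw [hδ, div_le_one (by positivity)]
    have : (0 : ℝ) ≤ i := Nat.cast_nonneg _
    linarith
  have hδε : 2 * δ < ε := by
    rw [hδ, mul_one_div, div_lt_iff₀ (by positivity)]
    rw [div_lt_iff₀ hε] at hi
    nlinarith
  filter_upwards [h.eventually_ge_atTop (k0 + 1 + 4 / δ)] with n hn
  set m : ℝ := mean μ E n with hm
  have h4δ : 0 < 4 / δ := by positivity
  have hk00 : (0 : ℝ) ≤ k0 := Nat.cast_nonneg _
  have hm0 : 0 < m := by linarith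
  set k : ℕ := ⌊m⌋₊ with hk
  have hkm : (k : ℝ) ≤ m := Nat.floor_le hm0.le
  have hmk : m < k + 1 := Nat.lt_floor_add_one m
  have hkk0 : k0 ≤ k := Nat.le_floor (by linarith)
  have h1 : tau μ E h k ≤ n := tau_le h hkm
  have h2 : n ≤ tau μ E h (k + 1) := by
    by_contra hc
    push Not at hc
    have h3 := mean_mono μ E hc.le
    have h4 := tau_spec h (k + 1)
    push_cast at h4
    linarith
  obtain ⟨c1, -⟩ := hk0 k hkk0
  obtain ⟨-, c4⟩ := hk0 (k + 1) (by omega)
  have h3 : (num E (tau μ E h k) ω : ℝ) ≤ num E n ω := by exact_mod_cast num_mono E ω h1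
  have h4 : (num E n ω : ℝ) ≤ num E (tau μ E h (k + 1)) ω := by exact_mod_cast num_mono E ω h2
  have h5 := tau_spec h k
  have h6 := tau_up h k
  have hlow : (1 - δ) * (m - 1) ≤ num E n ω := by
    refine le_trans ?_ (c1.trans h3)
    apply mul_le_mul_of_nonneg_left _ (by linarith)
    linarith
  have hup : (num E n ω : ℝ) ≤ (1 + δ) * (m + 2) := by
    refine h4.trans (c4.trans ?_)
    apply mul_le_mul_of_nonneg_left _ (by linarith)
    linarith
  have h7 : 4 ≤ δ * m := by
    have h8 : 4 / δ ≤ m := by linarith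
    rw [div_le_iff₀ hδ0] at h8
    linarith
  have h9 : |(num E n ω : ℝ) / m - 1| ≤ 2 * δ := by
    have e : (num E n ω : ℝ) / m - 1 = (num E n ω - m) / m := by
      field_simp
    rw [e, abs_le]
    constructor
    · rw [le_div_iff₀ hm0]
      nlinarith
    · rw [div_le_iff₀ hm0]
      nlinarith
  rw [Real.dist_eq]
  linarith

end Pool.Agent.T9h55.FM
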