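import Pool.Agent.T9h55.FM.Win
import Pool.Agent.T9h55.FM.Slln
import Pool.Agent.T9h55.RM.In

/-! Primes among the numbers `a p + M p ξ p` (helper55). -/

set_option autoImplicit false

namespace Pool.Agent.T9h55.FM

open Finset MeasureTheory ProbabilityTheory Filter Topology Real
open Pool.Agent.N718.DC (rt)

variable {Ω : Type*} [MeasurableSpace Ω] {μ : Measure Ω}

/-- the expected frequency -/
noncomputable def wt (M : ℕ → ℕ) (p : ℕ) : ℝ := rt (M p) / (p * Real.log goldenRatio)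

theorem asym (A : ℕ) (M H a : ℕ → ℕ) (K : ℝ) (hM1 : ∀ p, 1 ≤ M p) (hM : ∀ᶠ p : ℕ in atTop, (M p : ℝ) ≤ (p : ℝ) ^ A)
    (hMp : ∀ᶠ p : ℕ in atTop, ∀ q : ℕ, q.Prime → q ∣ M p → q ≤ p)
    (hH : ∀ᶠ p : ℕ in atTop, goldenRatio ^ p / (p : ℝ) ^ A ≤ (M p : ℝ) * H p ∧ (M p : ℝ) * H p ≤ goldenRatio ^ p * (p : ℝ) ^ A)
    (ha : ∀ᶠ n : ℕ in atTop, goldenRatio ^ n ≤ K * a n ∧ (a n : ℝ) ≤ K * goldenRatio ^ n)
    (hL : ∀ᶠ p : ℕ in atTop, p.Prime → ∀ q : ℕ, q.Prime → q ∣ a p → p < q) (ε : ℝ) (hε : 0 < ε) :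
    ∀ᶠ p : ℕ in atTop, p.Prime →
      |(#((range (H p)).filter fun h => (a p + M p * h).Prime) : ℝ) / H p - wt M p| ≤ ε * wt M p := by
  have hφ1 : 1 < goldenRatio := Real.one_lt_goldenRatio
  have hφ0 : 0 < goldenRatio := by linarith
  set l : ℝ := Real.log goldenRatio with hl
  have hl0 : 0 < l := Real.log_pos hφ1
  set δ : ℝ := min (ε / 4) 1 with hδ
  have hδ0 : 0 < δ := by positivity
  have hδ1 : δ ≤ 1 := min_le_right _ _
  have hδε : δ ≤ ε / 4 := min_le_left _ _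
  have hKpos : 0 < K := by
    obtain ⟨n, h1, -⟩ := ha.exists
    have h2 : 0 < goldenRatio ^ n := by positivity
    by_contra hc
    push Not at hc
    have h3 : K * a n ≤ 0 := mul_nonpos_of_nonpos_of_nonneg hc (Nat.cast_nonneg _)
    linarith
  have hatop : Tendsto a atTop atTop := by
    have h1 : Tendsto (fun n : ℕ => goldenRatio ^ n / K) atTop atTop :=
      (tendsto_pow_atTop_atTop_of_one_lt hφ1).atTop_div_const hKpos
    have h2 : Tendsto (fun n : ℕ => (a n : ℝ)) atTop atTop := by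
      apply tendsto_atTop_mono' _ _ h1
      filter_upwards [ha] with n hn
      rw [div_le_iff₀ hKpos]
      linarith [hn.1]
    exact tendsto_natCast_atTop_iff.1 h2
  have hw := hatop.eventually (win (A + 2) δ hδ0 hδ1)
  have hpl : Tendsto (fun p : ℕ => (p : ℝ) * l) atTop atTop := tendsto_natCast_atTop_atTop.atTop_mul_const hl0
  -- polynomial bounds
  have hE : (∀ᶠ p : ℕ in atTop, (p : ℝ) ^ A ≤ (p * l / 2) ^ (A + 2)) ∧ (∀ᶠ p : ℕ in atTop, K * (p : ℝ) ^ A ≤ (p * l / 2) ^ (A + 2)) := by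
    have key : ∀ c : ℝ, ∀ᶠ p : ℕ in atTop, c * (p : ℝ) ^ A ≤ (p * l / 2) ^ (A + 2) := by
      intro c
      have h1 : Tendsto (fun p : ℕ => (p : ℝ)) atTop atTop := tendsto_natCast_atTop_atTop
      filter_upwards [h1.eventually_ge_atTop (|c| * (2 / l) ^ (A + 2) + 1)] with p hp
      have h2 : (0 : ℝ) ≤ |c| * (2 / l) ^ (A + 2) := by positivity
      have hp0 : (0 : ℝ) < p := by linarith
      have h3 : (p * l / 2) ^ (A + 2) = (l / 2) ^ (A + 2) * p ^ 2 * p ^ A := by ring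
      rw [h3]
      apply mul_le_mul_of_nonneg_right _ (by positivity)
      have h4 : |c| ≤ (l / 2) ^ (A + 2) * p := by
        have h5 : |c| * (2 / l) ^ (A + 2) ≤ p := by linarith
        have h6 : (l / 2) ^ (A + 2) * (|c| * (2 / l) ^ (A + 2)) = |c| := by
          rw [mul_left_comm, ← mul_pow]
          have : l / 2 * (2 / l) = 1 := by
            field_simp
          rw [this, one_pow, mul_one]
        calc |c| = (l / 2) ^ (A + 2) * (|c| * (2 / l) ^ (A + 2)) := h6.symm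
          _ ≤ _ := mul_le_mul_of_nonneg_left h5 (by positivity)
      have h7 : (p : ℝ) ≤ p ^ 2 := by nlinarith
      have h8 : (l / 2) ^ (A + 2) * p ≤ (l / 2) ^ (A + 2) * p ^ 2 := mul_le_mul_of_nonneg_left h7 (by positivity)
      linarith [le_abs_self c]
    refine ⟨?_, key K⟩
    filter_upwards [key 1] with p hp
    linarith
  filter_upwards [hw, hM, hMp, hH, ha, hL, hpl.eventually_ge_atTop (2 * |Real.log K| + 8 * |Real.log K| / ε + 2), hE.1, hE.2,
    eventually_ge_atTop 2] with p w1 w2 w3 w4 w5 w6 w7 w8 w9 w10 hp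
  have hp0 : (0 : ℝ) < p := by exact_mod_cast hp.pos
  have hK0 : 0 ≤ 8 * |Real.log K| / ε := by positivity
  have hK1 : 0 ≤ |Real.log K| := abs_nonneg _
  have ha0 : (0 : ℝ) < a p := by
    have h1 : 0 < goldenRatio ^ p := by positivity
    by_contra hc
    push Not at hc
    have h2 : K * a p ≤ 0 := mul_nonpos_of_nonneg_of_nonpos hKpos.le hc
    linarith [w5.1]
  set L : ℝ := Real.log (a p) with hLd
  have hLdiff : |L - p * l| ≤ |Real.log K| := by
    have h1 := Real.log_le_log (by positivity) w5.1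
    have h2 := Real.log_le_log ha0 w5.2
    rw [Real.log_mul hKpos.ne' ha0.ne', Real.log_pow] at h1
    rw [Real.log_mul hKpos.ne' (by positivity), Real.log_pow] at h2
    rw [abs_le]
    constructor
    · linarith [le_abs_self (Real.log K)]
    · linarith [le_abs_self (Real.log K)]
  have hL2 : p * l / 2 ≤ L := by
    have := (abs_le.1 hLdiff).1
    linarith
  have hpl0 : 0 < p * l := by positivity
  have hL0 : 0 < L := by linarith
  have hLpow : (p * l / 2) ^ (A + 2) ≤ L ^ (A + 2) := pow_le_pow_left₀ (by positivity) hL2 _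
  have hco : Nat.Coprime (a p) (M p) := by
    rw [Nat.coprime_iff_gcd_eq_one]
    by_contra hne
    obtain ⟨q, hq, hd⟩ := Nat.exists_prime_and_dvd hne
    have h1 := w6 hp q hq (hd.trans (Nat.gcd_dvd_left _ _))
    have h2 := w3 q hq (hd.trans (Nat.gcd_dvd_right _ _))
    omega
  have hpA : (0 : ℝ) < (p : ℝ) ^ A := by positivity
  have hmain := w1 (M p) (H p) (hM1 p) (w2.trans (w8.trans hLpow)) (by
    refine le_trans ?_ w4.1
    rw [div_le_div_iff₀ (by positivity) hpA]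
    calc (a p : ℝ) * (p : ℝ) ^ A ≤ (K * goldenRatio ^ p) * (p : ℝ) ^ A := mul_le_mul_of_nonneg_right w5.2 hpA.le
      _ = goldenRatio ^ p * (K * (p : ℝ) ^ A) := by ring
      _ ≤ goldenRatio ^ p * L ^ (A + 2) := mul_le_mul_of_nonneg_left (w9.trans hLpow) (by positivity)) (by
    refine w4.2.trans ?_
    calc goldenRatio ^ p * (p : ℝ) ^ A ≤ (K * a p) * (p : ℝ) ^ A := mul_le_mul_of_nonneg_right w5.1 hpA.le
      _ = a p * (K * (p : ℝ) ^ A) := by ring
      _ ≤ a p * L ^ (A + 2) := mul_le_mul_of_nonneg_left (w9.trans hLpow) ha0.le) hco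
  set x0 : ℝ := (#((range (H p)).filter fun h => (a p + M p * h).Prime) : ℝ) / H p with hx0
  set g : ℝ := rt (M p) with hg
  have hg1 : 1 ≤ g := rt_ge_one (hM1 p)
  have hg0 : 0 < g := by linarith
  have hwt : wt M p = g / (p * l) := rfl
  rw [hwt]
  have e1 : x0 - g / (p * l) = ((L * x0 - g) * (p * l) + g * (p * l - L)) / (L * (p * l)) := by
    field_simp
    ring
  rw [e1, abs_div, abs_of_pos (mul_pos hL0 hpl0), div_le_iff₀ (mul_pos hL0 hpl0)]
  have h1 : |(L * x0 - g) * (p * l) + g * (p * l - L)| ≤ δ * g * (p * l) + g * |Real.log K| := by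
    refine (abs_add_le _ _).trans ?_
    rw [abs_mul (L * x0 - g), abs_mul g, abs_of_pos hpl0, abs_of_pos hg0, abs_sub_comm (p * l) L]
    exact add_le_add (mul_le_mul_of_nonneg_right hmain hpl0.le) (mul_le_mul_of_nonneg_left hLdiff hg0.le)
  refine h1.trans ?_
  have e2 : ε * (g / (p * l)) * (L * (p * l)) = ε * g * L := by
    field_simp
  rw [e2]
  have h2 : |Real.log K| ≤ ε / 8 * (p * l) := by
    have h3 : 8 * |Real.log K| / ε ≤ p * l := by linarith
    rw [div_le_iff₀ hε] at h3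
    linarith
  have h3 : δ * (p * l) ≤ ε / 4 * (p * l) := mul_le_mul_of_nonneg_right hδε hpl0.le
  have h4 : δ * (p * l) + |Real.log K| ≤ ε * L := by
    have h5 : ε * (p * l / 2) ≤ ε * L := mul_le_mul_of_nonneg_left hL2 hε.le
    have h6 : 0 ≤ ε * (p * l) := by positivity
    linarith
  calc δ * g * (p * l) + g * |Real.log K| = g * (δ * (p * l) + |Real.log K|) := by ring
    _ ≤ g * (ε * L) := mul_le_mul_of_nonneg_left h4 hg0.le
    _ = ε * g * L := by ring

open Classical in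
/-- the weights of the primes in `S` -/
noncomputable def ws (M : ℕ → ℕ) (S : Set ℕ) (j : ℕ) : ℝ := if j.Prime ∧ j ∈ S then wt M j else 0

lemma wt_nonneg (M : ℕ → ℕ) (p : ℕ) : 0 ≤ wt M p := by
  unfold wt rt
  have : 0 < Real.log goldenRatio := Real.log_pos Real.one_lt_goldenRatio
  positivity

lemma ws_nonneg (M : ℕ → ℕ) (S : Set ℕ) (j : ℕ) : 0 ≤ ws M S j := by
  unfold ws
  split_ifs
  · exact wt_nonneg M j
  · exact le_rfl

/-- the event that `a j + M j ξ j` is prime, for a prime `j` in `S` -/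
def Ev (a M : ℕ → ℕ) (ξ : ℕ → Ω → ℕ) (S : Set ℕ) (j : ℕ) : Set Ω := {ω | j.Prime ∧ j ∈ S ∧ (a j + M j * ξ j ω).Prime}

theorem ev_asym [IsProbabilityMeasure μ] (A : ℕ) (M H a : ℕ → ℕ) (K : ℝ) (hM1 : ∀ p, 1 ≤ M p)
    (hM : ∀ᶠ p : ℕ in atTop, (M p : ℝ) ≤ (p : ℝ) ^ A)
    (hMp : ∀ᶠ p : ℕ in atTop, ∀ q : ℕ, q.Prime → q ∣ M p → q ≤ p)
    (hH : ∀ᶠ p : ℕ in atTop, goldenRatio ^ p / (p : ℝ) ^ A ≤ (M p : ℝ) * H p ∧ (M p : ℝ) * H p ≤ goldenRatio ^ p * (p : ℝ) ^ A)
    (ha : ∀ᶠ n : ℕ in atTop, goldenRatio ^ n ≤ K * a n ∧ (a n : ℝ) ≤ K * goldenRatio ^ n)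
    (hL : ∀ᶠ p : ℕ in atTop, p.Prime → ∀ q : ℕ, q.Prime → q ∣ a p → p < q)
    (ξ : ℕ → Ω → ℕ) (hm : ∀ j, Measurable (ξ j)) (hu : ∀ j, 1 ≤ j → ∀ h < H j, μ.real {ω | ξ j ω = h} = 1 / (H j : ℝ))
    (S : Set ℕ) (ε : ℝ) (hε : 0 < ε) :
    ∀ᶠ j : ℕ in atTop, |μ.real (Ev a M ξ S j) - ws M S j| ≤ ε * ws M S j := by
  classical
  filter_upwards [asym A M H a K hM1 hM hMp hH ha hL ε hε, hH, eventually_ge_atTop 1] with j h1 h2 h3
  unfold ws Ev
  by_cases hj : j.Prime ∧ j ∈ S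
  · rw [if_pos hj]
    have hj0 : (0 : ℝ) < j := by exact_mod_cast h3
    have hH1 : 1 ≤ H j := by
      by_contra hc
      have h0 : H j = 0 := by omega
      rw [h0] at h2
      have h4 : 0 < goldenRatio ^ j / (j : ℝ) ^ A := by
        have := Real.goldenRatio_pos
        positivity
      have h5 := h2.1
      simp only [Nat.cast_zero, mul_zero] at h5
      linarith
    have h4 := Pool.Agent.T9h55.RM.prob_unif (μ := μ) (hm j) hH1 (hu j h3) (fun x => (a j + M j * x).Prime)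
    have e : {ω | j.Prime ∧ j ∈ S ∧ (a j + M j * ξ j ω).Prime} = {ω | (a j + M j * ξ j ω).Prime} := by
      ext ω
      simp [hj.1, hj.2]
    rw [e]
    have h5 := h1 hj.1
    convert h5 using 3
    rw [h4]
    congr!
  · rw [if_neg hj]
    have e : {ω | j.Prime ∧ j ∈ S ∧ (a j + M j * ξ j ω).Prime} = ∅ := by
      ext ω
      simp only [Set.mem_ofPred_eq, Set.mem_empty_iff_false, iff_false]
      rintro ⟨h4, h5, -⟩
      exact hj ⟨h4, h5⟩
    rw [e]
    simp

/-- the law -/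
theorem law [IsProbabilityMeasure μ] (A : ℕ) (M H a : ℕ → ℕ) (K : ℝ) (hM1 : ∀ p, 1 ≤ M p)
    (hM : ∀ᶠ p : ℕ in atTop, (M p : ℝ) ≤ (p : ℝ) ^ A)
    (hMp : ∀ᶠ p : ℕ in atTop, ∀ q : ℕ, q.Prime → q ∣ M p → q ≤ p)
    (hH : ∀ᶠ p : ℕ in atTop, goldenRatio ^ p / (p : ℝ) ^ A ≤ (M p : ℝ) * H p ∧ (M p : ℝ) * H p ≤ goldenRatio ^ p * (p : ℝ) ^ A)
    (ha : ∀ᶠ n : ℕ in atTop, goldenRatio ^ n ≤ K * a n ∧ (a n : ℝ) ≤ K * goldenRatio ^ n)
    (hL : ∀ᶠ p : ℕ in atTop, p.Prime → ∀ q : ℕ, q.Prime → q ∣ a p → p < q)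
    (ξ : ℕ → Ω → ℕ) (hm : ∀ j, Measurable (ξ j)) (hi : iIndepFun ξ μ)
    (hu : ∀ j, 1 ≤ j → ∀ h < H j, μ.real {ω | ξ j ω = h} = 1 / (H j : ℝ)) (S : Set ℕ) :
    (Tendsto (fun n => ∑ j ∈ range n, ws M S j) atTop atTop →
      ∀ᵐ ω ∂μ, Tendsto (fun n : ℕ => (num (Ev a M ξ S) n ω : ℝ) / ∑ j ∈ range n, ws M S j) atTop (𝓝 1)) ∧
    (Summable (ws M S) → ∀ᵐ ω ∂μ, {j | ω ∈ Ev a M ξ S j}.Finite) := by
  classical
  obtain ⟨hE1, hE2⟩ := Pool.Agent.T9h55.RM.indep_sets (μ := μ) hm hi (fun j x => j.Prime ∧ j ∈ S ∧ (a j + M j * x).Prime)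
  have hE1' : ∀ j, MeasurableSet (Ev a M ξ S j) := hE1
  have hE2' : iIndepSet (Ev a M ξ S) μ := hE2
  have has := ev_asym (μ := μ) A M H a K hM1 hM hMp hH ha hL ξ hm hu S
  constructor
  · intro hW
    have hlo : (fun j => μ.real (Ev a M ξ S j) - ws M S j) =o[atTop] (ws M S) := by
      rw [Asymptotics.isLittleO_iff]
      intro c hc
      filter_upwards [has c hc] with j hj
      rw [Real.norm_eq_abs, Real.norm_eq_abs, abs_of_nonneg (ws_nonneg M S j)]
      exact hj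
    have hsum := hlo.sum_range (fun j => ws_nonneg M S j) hW
    have hratio : Tendsto (fun n => mean μ (Ev a M ξ S) n / ∑ j ∈ range n, ws M S j) atTop (𝓝 1) := by
      have h1 := hsum.tendsto_div_nhds_zero
      have h2 := h1.add_const 1
      rw [zero_add] at h2
      refine h2.congr' ?_
      filter_upwards [hW.eventually_gt_atTop 0] with n hn
      rw [Finset.sum_sub_distrib]
      unfold mean
      field_simp
      ring
    have hmean : Tendsto (mean μ (Ev a M ξ S)) atTop atTop := by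
      have h1 := hratio.pos_mul_atTop one_pos hW
      refine h1.congr' ?_
      filter_upwards [hW.eventually_gt_atTop 0] with n hn
      field_simp
    filter_upwards [slln hE1' hE2' hmean] with ω hω
    have h1 := hω.mul hratio
    rw [one_mul] at h1
    refine h1.congr' ?_
    filter_upwards [hmean.eventually_gt_atTop 0] with n hn
    field_simp
  · intro hs
    have h1 : Summable fun j => μ.real (Ev a M ξ S j) := by
      have h2 : ∀ᶠ j : ℕ in atTop, μ.real (Ev a M ξ S j) ≤ 2 * ws M S j := by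
        filter_upwards [has 1 one_pos] with j hj
        have := (abs_le.1 hj).2
        linarith
      obtain ⟨n, hn⟩ := eventually_atTop.1 h2
      rw [← summable_nat_add_iff n]
      refine Summable.of_nonneg_of_le (fun _ => measureReal_nonneg) (fun j => hn (j + n) (by omega)) ?_
      exact (((summable_nat_add_iff n).2 hs).mul_left 2)
    have h3 : ∑' j, μ (Ev a M ξ S j) ≠ ⊤ := by
      have h4 : ∀ j, μ (Ev a M ξ S j) = ENNReal.ofReal (μ.real (Ev a M ξ S j)) := fun j =>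
        (ENNReal.ofReal_toReal (measure_ne_top μ _)).symm
      simp only [h4]
      rw [← ENNReal.ofReal_tsum_of_nonneg (fun _ => measureReal_nonneg) h1]
      exact ENNReal.ofReal_ne_top
    exact ae_finite_setOf_mem h3

end Pool.Agent.T9h55.FM
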