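import Pool.Agent.T9h55.KQ.Win

/-! Primes `b + M h`, `h < H` (helper55). -/

set_option autoImplicit false

namespace Pool.Agent.T9h55.FM

open Finset Filter Topology
open Pool.Agent.N718.DC (lam pos rt S_SW S_LIN)
open Pool.Agent.T9h55.KQ (lin sum_int)

lemma small_ev (A : ℕ) (ε : ℝ) (hε : 0 < ε) : ∀ᶠ L : ℝ in atTop, 3 + 4 * (2 + A * Real.log L) ≤ ε * L := by
  have h1 : (fun L : ℝ => 3 + 4 * (2 + A * Real.log L)) =o[atTop] (id : ℝ → ℝ) := by
    have e : (fun L : ℝ => 3 + 4 * (2 + A * Real.log L)) = fun L : ℝ => 11 + (4 * A) * Real.log L := by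
      funext L
      ring
    rw [e]
    exact (Asymptotics.isLittleO_const_id_atTop (11 : ℝ)).add (Real.isLittleO_log_id_atTop.const_mul_left _)
  filter_upwards [h1.def hε, eventually_ge_atTop 0] with L h2 h3
  rw [id, Real.norm_eq_abs, Real.norm_eq_abs, abs_of_nonneg h3] at h2
  exact (le_abs_self _).trans h2

lemma rt_ge_one {M : ℕ} (hM : 1 ≤ M) : 1 ≤ rt M := by
  unfold rt
  have h1 : (0 : ℝ) < Nat.totient M := by exact_mod_cast Nat.totient_pos.2 hM
  rw [le_div_iff₀ h1, one_mul]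
  exact_mod_cast Nat.totient_le M

/-- the primes in a window -/
theorem win (A : ℕ) (ε : ℝ) (hε : 0 < ε) (hε1 : ε ≤ 1) : ∀ᶠ b : ℕ in atTop, ∀ M H : ℕ, 1 ≤ M → (M : ℝ) ≤ Real.log b ^ A →
    (b : ℝ) / Real.log b ^ A ≤ (M : ℝ) * H → (M : ℝ) * H ≤ (b : ℝ) * Real.log b ^ A → Nat.Coprime b M →
    |Real.log b * ((#((range H).filter fun h => (b + M * h).Prime) : ℝ) / H) - rt M| ≤ ε * rt M := by
  classical
  obtain ⟨X₀, hX⟩ := lin A (3 * A + 2)
  have hlog : Tendsto (fun k : ℕ => Real.log (k : ℝ)) atTop atTop := Real.tendsto_log_atTop.comp tendsto_natCast_atTop_atTop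
  filter_upwards [hlog.eventually_ge_atTop 1, hlog.eventually (small_ev A ε hε), eventually_ge_atTop (X₀ + 10)] with
    b hk1 hk2 hk3 M H hM1 h1 h2 h3 hco
  set L : ℝ := Real.log b with hL
  have hL1 : 1 ≤ L := hk1
  have hL0 : 0 < L := by linarith
  have hM0 : (0 : ℝ) < M := by exact_mod_cast hM1
  have hb0 : (0 : ℝ) < b := by exact_mod_cast (by omega : 0 < b)
  have hLA : 1 ≤ L ^ A := one_le_pow₀ hL1
  have hH0 : (0 : ℝ) < H := by
    have h4 : 0 < (b : ℝ) / L ^ A := by positivity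
    have h5 : 0 < (M : ℝ) * H := lt_of_lt_of_le h4 h2
    exact (mul_pos_iff_of_pos_left hM0).1 h5
  set X : ℕ := b + M * H with hXd
  have hXr : (X : ℝ) = b + M * H := by
    rw [hXd]
    push_cast
    ring
  have hkX : (b : ℝ) ≤ X := by
    rw [hXr]
    have : 0 < (M : ℝ) * H := by positivity
    linarith
  have hXX : X₀ ≤ X := by
    have h5 : b ≤ X := by exact_mod_cast hkX
    omega
  have hlogX : L ≤ Real.log X := Real.log_le_log hb0 hkX
  have hX3 : (X : ℝ) ≤ 2 * b * L ^ A := by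
    rw [hXr]
    have h5 : (b : ℝ) ≤ b * L ^ A := le_mul_of_one_le_right hb0.le hLA
    linarith
  have hX0 : (0 : ℝ) < X := lt_of_lt_of_le hb0 hkX
  have key := hX X hXX M hM1 (h1.trans (pow_le_pow_left₀ hL0.le hlogX A)) (b : ℤ) 0 ((H : ℤ) - 1) (by
    intro t ht
    rw [mem_Icc] at ht
    have h4 : (M : ℤ) * t ≤ M * H := mul_le_mul_of_nonneg_left (by omega) (by positivity)
    have h5 : (0 : ℤ) ≤ (M : ℤ) * t := mul_nonneg (by positivity) ht.1
    rw [abs_of_nonneg (by omega), hXd]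
    push_cast
    omega)
  rw [sum_int, sum_int] at key
  have hpos : ∑ h ∈ range H, pos ((b : ℤ) + (M : ℤ) * (h : ℤ)) = H := by
    rw [Finset.sum_congr rfl (g := fun _ => (1 : ℝ))]
    · rw [Finset.sum_const, card_range, nsmul_eq_mul, mul_one]
    · intro h _
      unfold pos
      rw [if_pos]
      have h7 : (0 : ℤ) ≤ (M : ℤ) * (h : ℤ) := by positivity
      omega
  rw [hpos, if_pos (Nat.isCoprime_iff_coprime.2 hco)] at key
  set S : ℝ := ∑ h ∈ range H, lam ((b : ℤ) + (M : ℤ) * (h : ℤ)) with hS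
  set g : ℝ := rt M with hg
  have hg1 : 1 ≤ g := rt_ge_one hM1
  -- the error term
  have herr : (X : ℝ) / Real.log X ^ (3 * A + 2) ≤ 3 / L * H := by
    have h4 : L ^ (3 * A + 2) ≤ Real.log X ^ (3 * A + 2) := pow_le_pow_left₀ hL0.le (by linarith) _
    have h5 : (b : ℝ) ≤ L ^ (2 * A) * H := by
      have h6 : (b : ℝ) ≤ (M * H) * L ^ A := by
        rwa [div_le_iff₀ (by positivity)] at h2
      calc (b : ℝ) ≤ (M * H) * L ^ A := h6
        _ ≤ (L ^ A * H) * L ^ A := by gcongr
        _ = L ^ (2 * A) * H := by ring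
    calc (X : ℝ) / Real.log X ^ (3 * A + 2) ≤ X / L ^ (3 * A + 2) := by gcongr
      _ ≤ (2 * b * L ^ A) / L ^ (3 * A + 2) := by gcongr
      _ ≤ (2 * (L ^ (2 * A) * H) * L ^ A) / L ^ (3 * A + 2) := by gcongr
      _ = 2 / L ^ 2 * H := by
          have e1 : L ^ (3 * A + 2) = L ^ (2 * A) * L ^ A * L ^ 2 := by ring
          rw [e1]
          field_simp
      _ ≤ 3 / L * H := by
          have h6 : L ≤ L ^ 2 := by nlinarith
          apply mul_le_mul_of_nonneg_right _ hH0.le
          exact div_le_div₀ (by norm_num) (by norm_num) hL0 h6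
  have key2 := key.trans herr
  -- comparison with the number of primes
  set N : ℝ := (#((range H).filter fun h => (b + M * h).Prime) : ℝ) with hN
  have hN0 : 0 ≤ N := Nat.cast_nonneg _
  have hNsum : N = ∑ h ∈ range H, if (b + M * h).Prime then (1 : ℝ) else 0 := by
    rw [hN, Finset.card_filter]
    push_cast
    rfl
  have hlam : ∀ h ∈ range H, L * (if (b + M * h).Prime then (1 : ℝ) else 0) ≤ lam ((b : ℤ) + (M : ℤ) * (h : ℤ)) ∧
      lam ((b : ℤ) + (M : ℤ) * (h : ℤ)) ≤ (L + (2 + A * Real.log L)) * (if (b + M * h).Prime then (1 : ℝ) else 0) := by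
    intro h hh
    rw [mem_range] at hh
    have e1 : (b : ℤ) + (M : ℤ) * (h : ℤ) = ((b + M * h : ℕ) : ℤ) := by push_cast; rfl
    rw [e1]
    unfold lam
    rw [Int.natAbs_natCast]
    have hp : (0 : ℤ) < ((b + M * h : ℕ) : ℤ) := by
      exact_mod_cast (by omega : 0 < b + M * h)
    by_cases hpr : (b + M * h).Prime
    · rw [if_pos hpr, if_pos ⟨hp, hpr⟩, mul_one, mul_one]
      have h4 : (b : ℝ) ≤ (((b + M * h : ℕ) : ℤ) : ℝ) := by
        push_cast
        have : (0 : ℝ) ≤ (M : ℝ) * h := by positivity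
        linarith
      have h5 : (((b + M * h : ℕ) : ℤ) : ℝ) ≤ X := by
        rw [hXr]
        push_cast
        have : (M : ℝ) * h ≤ M * H := by
          have : (h : ℝ) ≤ H := by exact_mod_cast hh.le
          gcongr
        linarith
      constructor
      · exact Real.log_le_log hb0 h4
      · have h6 := Real.log_le_log (lt_of_lt_of_le hb0 h4) (h5.trans hX3)
        rw [Real.log_mul (by positivity) (by positivity), Real.log_mul (by positivity) (by positivity), Real.log_pow] at h6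
        have h7 : Real.log 2 ≤ 2 := by
          have := Real.log_le_sub_one_of_pos (show (0 : ℝ) < 2 by norm_num)
          linarith
        push_cast at h6 ⊢
        linarith
    · rw [if_neg hpr, if_neg (fun h' => hpr h'.2), mul_zero, mul_zero]
      exact ⟨le_rfl, le_rfl⟩
  have hlow : L * N ≤ S := by
    rw [hNsum, Finset.mul_sum]
    exact Finset.sum_le_sum fun h hh => (hlam h hh).1
  have hup : S ≤ (L + (2 + A * Real.log L)) * N := by
    rw [hNsum, Finset.mul_sum]
    exact Finset.sum_le_sum fun h hh => (hlam h hh).2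
  have hlogL : 0 ≤ Real.log L := Real.log_nonneg hL1
  have hD0 : 0 ≤ (A : ℝ) * Real.log L := mul_nonneg (Nat.cast_nonneg _) hlogL
  rw [abs_le] at key2
  have hgH : (H : ℝ) ≤ g * H := le_mul_of_one_le_left hH0.le hg1
  set D : ℝ := 2 + A * Real.log L with hD
  have hD2 : 0 ≤ D := by linarith
  have h3L : 3 / L ≤ 3 := by
    rw [div_le_iff₀ hL0]
    linarith
  have hd0 : 0 ≤ 3 / L := by positivity
  have hLN : L * N ≤ 4 * (g * H) := by
    have h5 : 3 / L * H ≤ 3 * (g * H) := mul_le_mul h3L hgH hH0.le (by norm_num)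
    linarith [key2.2]
  have hLNe : L * N ≤ g * H + 3 / L * (g * H) := by
    have h5 : 3 / L * H ≤ 3 / L * (g * H) := mul_le_mul_of_nonneg_left hgH hd0
    linarith [key2.2]
  have hDN : D * N ≤ 4 * D / L * (g * H) := by
    have h4 : D * (L * N) ≤ D * (4 * (g * H)) := mul_le_mul_of_nonneg_left hLN hD2
    rw [div_mul_eq_mul_div, le_div_iff₀ hL0]
    linarith
  have heps : 3 / L + 4 * D / L ≤ ε := by
    rw [← add_div, div_le_iff₀ hL0]
    exact hk2
  have hD4 : 0 ≤ 4 * D / L := by positivity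
  have hgH0 : 0 ≤ g * H := by positivity
  have hA : 3 / L * (g * H) + 4 * D / L * (g * H) ≤ ε * (g * H) := by
    rw [← add_mul]
    exact mul_le_mul_of_nonneg_right heps hgH0
  have h6 : 3 / L * H ≤ 3 / L * (g * H) := mul_le_mul_of_nonneg_left hgH hd0
  have h7 : 0 ≤ 4 * D / L * (g * H) := mul_nonneg hD4 hgH0
  have e1 : L * (N / H) - g = (L * N - g * H) / H := by
    field_simp
  rw [e1, abs_le]
  constructor
  · rw [le_div_iff₀ hH0]
    have h8 : (L + D) * N = L * N + D * N := by ring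
    rw [h8] at hup
    linarith [key2.1]
  · rw [div_le_iff₀ hH0]
    linarith

end Pool.Agent.T9h55.FM
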